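import Pool.Agent.H28.GU.TargetsC

/-!
Row BX of the project GU: the number of boxes.
-/

set_option autoImplicit false

open Finset Filter Topology

namespace Pool.Agent.H40.GU

open Pool.Agent.H28.GU

/-- The boxes of a set. -/
def bxs {d q : ℕ} [NeZero q] (S : Finset (Fin d → ZMod q)) :
    Finset ((Fin d → ZMod q) × (Fin d → ZMod q)) :=
  Finset.univ.filter (fun z => ∀ μ : Finset (Fin d), mix μ z.1 z.2 ∈ S)

/-- The common slice of a set at two values of the first variable. -/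
def sec {d q : ℕ} [NeZero q] (S : Finset (Fin (d + 1) → ZMod q)) (p : ZMod q × ZMod q) :
    Finset (Fin d → ZMod q) :=
  Finset.univ.filter (fun z => (Fin.cons p.1 z : Fin (d + 1) → ZMod q) ∈ S ∧
    (Fin.cons p.2 z : Fin (d + 1) → ZMod q) ∈ S)

/-- The fibre of a set over the last coordinates. -/
def fib {d q : ℕ} [NeZero q] (S : Finset (Fin (d + 1) → ZMod q)) (z : Fin d → ZMod q) :
    Finset (ZMod q) :=
  Finset.univ.filter (fun x => (Fin.cons x z : Fin (d + 1) → ZMod q) ∈ S)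

theorem sum_fib {d q : ℕ} [NeZero q] (S : Finset (Fin (d + 1) → ZMod q)) :
    ∑ z, (fib S z).card = S.card := by
  classical
  have h : S.card = ∑ z : Fin d → ZMod q, (S.filter (fun s => Fin.tail s = z)).card :=
    Finset.card_eq_sum_card_fiberwise (fun s _ => Finset.mem_coe.2 (Finset.mem_univ _))
  rw [h]
  refine Finset.sum_congr rfl fun z _ => ?_
  refine Finset.card_bij (fun x _ => (Fin.cons x z : Fin (d + 1) → ZMod q)) ?_ ?_ ?_
  · intro x hx
    simp only [fib, Finset.mem_filter, Finset.mem_univ, true_and] at hx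
    simp only [Finset.mem_filter]
    exact ⟨hx, Fin.tail_cons _ _⟩
  · intro x _ y _ hxy
    have := congrFun hxy 0
    simpa using this
  · intro s hs
    simp only [Finset.mem_filter] at hs
    refine ⟨s 0, ?_, ?_⟩
    · simp only [fib, Finset.mem_filter, Finset.mem_univ, true_and]
      rw [← hs.2, Fin.cons_self_tail]
      exact hs.1
    · rw [← hs.2, Fin.cons_self_tail]

theorem sum_sec {d q : ℕ} [NeZero q] (S : Finset (Fin (d + 1) → ZMod q)) :
    ∑ p : ZMod q × ZMod q, (sec S p).card = ∑ z, (fib S z).card ^ 2 := by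
  classical
  have h1 : ∀ p : ZMod q × ZMod q, (sec S p).card =
      ∑ z : Fin d → ZMod q, if (p.1 ∈ fib S z ∧ p.2 ∈ fib S z) then 1 else 0 := by
    intro p
    rw [sec, Finset.card_filter]
    refine Finset.sum_congr rfl fun z _ => ?_
    simp [fib]
  simp_rw [h1]
  rw [Finset.sum_comm]
  refine Finset.sum_congr rfl fun z _ => ?_
  rw [← Finset.card_filter, sq, ← Finset.card_product]
  congr 1
  ext p
  simp [Finset.mem_product]

theorem mix_cons_mem {d q : ℕ} [NeZero q] (S : Finset (Fin (d + 1) → ZMod q))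
    (p : ZMod q × ZMod q) (z : (Fin d → ZMod q) × (Fin d → ZMod q)) (hz : z ∈ bxs (sec S p)) :
    ((Fin.cons p.1 z.1 : Fin (d + 1) → ZMod q), (Fin.cons p.2 z.2 : Fin (d + 1) → ZMod q)) ∈
      bxs S := by
  classical
  simp only [bxs, Finset.mem_filter, Finset.mem_univ, true_and] at hz ⊢
  intro μ
  set ν : Finset (Fin d) := Finset.univ.filter (fun i => i.succ ∈ μ) with hν
  have h := hz ν
  simp only [sec, Finset.mem_filter, Finset.mem_univ, true_and] at h
  have key : ∀ c : ZMod q, (c = if (0 : Fin (d + 1)) ∈ μ then p.2 else p.1) →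
      mix μ (Fin.cons p.1 z.1 : Fin (d + 1) → ZMod q) (Fin.cons p.2 z.2) =
        Fin.cons c (mix ν z.1 z.2) := by
    intro c hc
    funext i
    refine Fin.cases ?_ (fun i => ?_) i
    · simp [mix, hc]
    · simp [mix, hν]
  by_cases h0 : (0 : Fin (d + 1)) ∈ μ
  · rw [key p.2 (by simp [h0])]
    exact h.2
  · rw [key p.1 (by simp [h0])]
    exact h.1

theorem sum_bxs_le {d q : ℕ} [NeZero q] (S : Finset (Fin (d + 1) → ZMod q)) :
    ∑ p : ZMod q × ZMod q, (bxs (sec S p)).card ≤ (bxs S).card := by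
  classical
  rw [← Finset.card_sigma]
  refine Finset.card_le_card_of_injOn
    (fun x => ((Fin.cons x.1.1 x.2.1 : Fin (d + 1) → ZMod q),
      (Fin.cons x.1.2 x.2.2 : Fin (d + 1) → ZMod q))) ?_ ?_
  · intro x hx
    rw [Finset.mem_coe, Finset.mem_sigma] at hx
    exact Finset.mem_coe.2 (mix_cons_mem S x.1 x.2 hx.2)
  · rintro ⟨⟨x1, x2⟩, ⟨z1, z2⟩⟩ _ ⟨⟨y1, y2⟩, ⟨w1, w2⟩⟩ _ h
    simp only [Prod.mk.injEq] at h
    obtain ⟨h1, h2⟩ := h
    obtain ⟨rfl, rfl⟩ := Fin.cons_injective2 h1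
    obtain ⟨rfl, rfl⟩ := Fin.cons_injective2 h2
    rfl

theorem bxs_bound (q : ℕ) [NeZero q] : ∀ (d : ℕ) (α : ℝ) (S : Finset (Fin d → ZMod q)), 0 ≤ α →
    α * (q : ℝ) ^ d ≤ (S.card : ℝ) →
    α ^ (2 ^ d) * (q : ℝ) ^ (2 * d) ≤ ((bxs S).card : ℝ) := by
  intro d
  induction d with
  | zero =>
    intro α S hα hS
    have hsub : bxs S = Finset.univ.filter (fun z : (Fin 0 → ZMod q) × (Fin 0 → ZMod q) =>
        z.1 ∈ S) := by
      ext z
      simp only [bxs, Finset.mem_filter, Finset.mem_univ, true_and]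
      have h : ∀ μ : Finset (Fin 0), mix μ z.1 z.2 = z.1 := fun μ => Subsingleton.elim _ _
      constructor
      · intro hz
        have := hz ∅
        rwa [h] at this
      · intro hz μ
        rwa [h]
    have hcard : (S.card : ℝ) ≤ ((bxs S).card : ℝ) := by
      rw [hsub]
      refine Nat.cast_le.2 (Finset.card_le_card_of_injOn (fun s => (s, s)) ?_ ?_)
      · intro s hs
        simpa using hs
      · intro s _ t _ h
        exact Subsingleton.elim _ _
    simp only [pow_zero, mul_one, pow_one, Nat.mul_zero] at hS ⊢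
    exact hS.trans hcard
  | succ d ih =>
    intro α S hα hS
    have hq : (0 : ℝ) < q := by exact_mod_cast Nat.pos_of_ne_zero (NeZero.ne q)
    have hqd : (0 : ℝ) < (q : ℝ) ^ d := pow_pos hq d
    -- the densities of the sections
    set t : ZMod q × ZMod q → ℝ := fun p => ((sec S p).card : ℝ) / (q : ℝ) ^ d with ht
    have ht0 : ∀ p ∈ (Finset.univ : Finset (ZMod q × ZMod q)), 0 ≤ t p := by
      intro p _
      positivity
    have h1 : ∀ p, t p ^ (2 ^ d) * (q : ℝ) ^ (2 * d) ≤ ((bxs (sec S p)).card : ℝ) := by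
      intro p
      refine ih (t p) (sec S p) (ht0 p (Finset.mem_univ _)) (le_of_eq ?_)
      rw [ht]
      field_simp
    have h2 : α ^ 2 * (q : ℝ) ^ 2 ≤ ∑ p, t p := by
      have e1 : ∑ p, t p = (∑ z : Fin d → ZMod q, ((fib S z).card : ℝ) ^ 2) / (q : ℝ) ^ d := by
        rw [ht, ← Finset.sum_div]
        congr 1
        exact_mod_cast sum_sec S
      have e2 : (∑ z : Fin d → ZMod q, ((fib S z).card : ℝ)) = (S.card : ℝ) := by
        exact_mod_cast sum_fib S
      have e3 : (∑ z : Fin d → ZMod q, ((fib S z).card : ℝ)) ^ 2 ≤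
          (q : ℝ) ^ d * ∑ z : Fin d → ZMod q, ((fib S z).card : ℝ) ^ 2 := by
        have := sq_sum_le_card_mul_sum_sq (s := (Finset.univ : Finset (Fin d → ZMod q)))
          (f := fun z => ((fib S z).card : ℝ))
        simpa [ZMod.card] using this
      rw [e1, le_div_iff₀ hqd]
      have e4 : (α * (q : ℝ) ^ (d + 1)) ^ 2 ≤ (S.card : ℝ) ^ 2 :=
        pow_le_pow_left₀ (by positivity) hS 2
      rw [e2] at e3
      have e5 : (q : ℝ) ^ d * (α ^ 2 * (q : ℝ) ^ 2 * (q : ℝ) ^ d) ≤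
          (q : ℝ) ^ d * ∑ z : Fin d → ZMod q, ((fib S z).card : ℝ) ^ 2 := by
        refine le_trans (le_of_eq ?_) (e4.trans e3)
        ring
      exact le_of_mul_le_mul_left e5 hqd
    have h3 : (∑ p, t p) ^ (2 ^ d - 1 + 1) / ((q : ℝ) ^ 2) ^ (2 ^ d - 1) ≤
        ∑ p, t p ^ (2 ^ d - 1 + 1) := by
      have := pow_sum_div_card_le_sum_pow (s := (Finset.univ : Finset (ZMod q × ZMod q)))
        (f := t) ht0 (2 ^ d - 1)
      simpa [ZMod.card, sq] using this
    have hpow : 2 ^ d - 1 + 1 = 2 ^ d := Nat.sub_add_cancel Nat.one_le_two_pow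
    have h4 : α ^ (2 ^ (d + 1)) * (q : ℝ) ^ 2 ≤ ∑ p, t p ^ (2 ^ d) := by
      rw [hpow] at h3
      refine le_trans ?_ h3
      rw [le_div_iff₀ (by positivity)]
      refine le_trans (le_of_eq ?_) (pow_le_pow_left₀ (by positivity) h2 (2 ^ d))
      have e6 : ((q : ℝ) ^ 2) * ((q : ℝ) ^ 2) ^ (2 ^ d - 1) = ((q : ℝ) ^ 2) ^ (2 ^ d) := by
        rw [← pow_succ', hpow]
      have e7 : α ^ (2 ^ (d + 1)) = (α ^ 2) ^ (2 ^ d) := by
        rw [← pow_mul, pow_succ, mul_comm]
      rw [mul_pow, mul_assoc, e6, e7]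
    calc α ^ (2 ^ (d + 1)) * (q : ℝ) ^ (2 * (d + 1))
        = (α ^ (2 ^ (d + 1)) * (q : ℝ) ^ 2) * (q : ℝ) ^ (2 * d) := by ring
      _ ≤ (∑ p, t p ^ (2 ^ d)) * (q : ℝ) ^ (2 * d) :=
          mul_le_mul_of_nonneg_right h4 (by positivity)
      _ = ∑ p, t p ^ (2 ^ d) * (q : ℝ) ^ (2 * d) := by rw [Finset.sum_mul]
      _ ≤ ∑ p, ((bxs (sec S p)).card : ℝ) := Finset.sum_le_sum fun p _ => h1 p
      _ ≤ ((bxs S).card : ℝ) := by exact_mod_cast sum_bxs_le S

theorem pf_BX : T_BX := by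
  intro d q _ α S hα hS
  exact bxs_bound q d α S hα hS

end Pool.Agent.H40.GU
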