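import Pool.Agent.H28.GU.TargetsC

/-!
Row PC of the project GU: the combinatorial half of the inductive step.
-/

set_option autoImplicit false

open Finset Filter Topology

namespace Pool.Agent.H40.GU

open Pool.Agent.H28.GU

theorem mix_empty {d : ℕ} {G : Type} (s b : Fin d → G) : mix ∅ s b = s := by
  funext i
  simp [mix]

theorem pf_PC (hC1 : T_C1) (hCL : T_CL) (hBX : T_BX) (hIN : T_IN) (hVN : T_VN) : T_PC := by
  intro d δ hd hδ
  obtain ⟨c, hc, hCL'⟩ := hCL d (δ / 2) (by positivity)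
  refine ⟨min (c ^ (2 ^ d)) (δ / 2), lt_min (by positivity) (by positivity), ?_⟩
  intro f B k hf
  obtain ⟨f1, hf1, hIN'⟩ := hIN d f B k hf
  obtain ⟨δ', hδ', hVN'⟩ := hVN d (min f1 (δ / 2)) (lt_min hf1 (by positivity))
  refine ⟨δ', hδ', ?_⟩
  intro q hqp u hu hG
  obtain ⟨S, τ, hS, hτ⟩ := hC1 d q u δ hu hδ hG
  obtain ⟨S', hS'S, hS'c, hFr⟩ := hCL' q u S τ hu hS hτ
  have hq : (0 : ℝ) < q := by exact_mod_cast hqp.out.pos
  refine ⟨τ, Finset.univ.filter (fun z : (Fin d → ZMod q) × (Fin d → ZMod q) =>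
    ∀ μ : Finset (Fin d), mix μ z.1 z.2 ∈ S'), ?_, ?_, ?_⟩
  · refine le_trans ?_ (hBX d q c S' hc.le hS'c)
    exact mul_le_mul_of_nonneg_right (min_le_left _ _) (by positivity)
  · intro z hz
    simp only [Finset.mem_filter, Finset.mem_univ, true_and] at hz
    have h := hz ∅
    rw [mix_empty] at h
    refine le_trans ?_ (hτ z.1 (hS'S h))
    exact mul_le_mul_of_nonneg_right (min_le_right _ _) hq.le
  · intro W _ a p κ Q r cc F hW hQ hp hap hF hFR hFr' hK
    have hne : Nonempty W := by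
      by_contra hcon
      rw [not_nonempty_iff] at hcon
      exact hK (Finset.sum_of_isEmpty _)
    obtain ⟨S₁, v, hS₁S, hS₁c, hv, hdec⟩ := hIN' q W a p κ Q r cc S' τ F hW hQ hp hap hFr hF
      (by
        intro z hz w μ
        have h := hFR z hz w
        simp only [Finset.mem_filter, Finset.mem_univ, true_and] at h
        exact h μ)
      hFr' (fun h0 => absurd h0 (by omega))
    set K : ZMod q := ∑ w, κ w * a w ^ d with hKdef
    refine hVN' q u S₁ (fun i s => K⁻¹ * v i s) hu ?_ ?_ ?_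
    · intro i z t
      simp only [hv i z t]
    · refine le_trans ?_ hS₁c
      exact mul_le_mul_of_nonneg_right (min_le_left _ _) (by positivity)
    · intro s hs
      have h1 : ∑ i, K⁻¹ * v i s = τ s := by
        rw [← Finset.mul_sum, ← hdec s hs, ← mul_assoc, inv_mul_cancel₀ hK, one_mul]
      rw [h1]
      refine le_trans ?_ (hτ s (hS'S (hS₁S hs)))
      exact mul_le_mul_of_nonneg_right (min_le_right _ _) hq.le

end Pool.Agent.H40.GU
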